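import Pool.Agent.H30.VX.Targets

/-!
# Paths between two hubs (row L3D of the board vex)
-/

set_option autoImplicit false

open Finset Pool.Agent.H48.CE Pool.Agent.H30.VR Pool.Agent.H30.VX

namespace Pool.Agent.H17.VX

open scoped Classical in
theorem cn_card {V : Type} (G : SimpleGraph V) (B Z : Finset V) (h h' : V) :
    (nb G B h).card + (nb G B h').card ≤
      B.card + (((cn G B h h').filter (fun v => v ∉ Z)).card +
        (B.filter (fun v => v ∈ Z)).card) := by
  have h1 : B ⊆ ((cn G B h h').filter (fun v => v ∉ Z)) ∪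
      ((B \ nb G B h) ∪ ((B \ nb G B h') ∪ B.filter (fun v => v ∈ Z))) := by
    intro v hv
    simp only [Finset.mem_union, Finset.mem_filter, Finset.mem_sdiff, mem_cn, mem_nb]
    tauto
  have h2 := (Finset.card_le_card h1).trans (Finset.card_union_le _ _)
  have h3 := Finset.card_union_le (B \ nb G B h) ((B \ nb G B h') ∪ B.filter (fun v => v ∈ Z))
  have h4 := Finset.card_union_le (B \ nb G B h') (B.filter (fun v => v ∈ Z))
  have hs : ∀ x, nb G B x ⊆ B := fun x v hv => (mem_nb.1 hv).1
  have h5 := Finset.card_sdiff_add_card_eq_card (hs h)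
  have h6 := Finset.card_sdiff_add_card_eq_card (hs h')
  omega

theorem pf_L3D (hALT : T_ALT) : T_L3D := by
  classical
  intro V G H B Z ε k y y' hC hε hk hHk hy hy' hne hZH hZ s hs1 hs2
  obtain ⟨hHB, hH, hB, hdeg⟩ := hC
  -- further hubs
  obtain ⟨T, hT, hTc⟩ : ∃ T ⊆ (H.erase y).erase y', T.card = s - 1 := by
    refine Finset.exists_subset_card_eq ?_
    rw [Finset.card_erase_of_mem (Finset.mem_erase.2 ⟨hne.symm, hy'⟩), Finset.card_erase_of_mem hy]
    omega
  have hTm : ∀ v ∈ T, v ≠ y' ∧ v ≠ y ∧ v ∈ H := by
    intro v hv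
    have h := hT hv
    rw [Finset.mem_erase, Finset.mem_erase] at h
    exact ⟨h.1, h.2.1, h.2.2⟩
  have hlen : T.toList.length = s - 1 := by rw [Finset.length_toList, hTc]
  have hall : ∀ v ∈ y :: (T.toList ++ [y']), v ∈ H := by
    intro v hv
    rw [List.mem_cons, List.mem_append, List.mem_singleton, Finset.mem_toList] at hv
    rcases hv with rfl | hv | rfl
    · exact hy
    · exact (hTm v hv).2.2
    · exact hy'
  obtain ⟨l, hl, hP, hm⟩ := hALT G B Z y y' T.toList k
    (by
      rw [List.nodup_cons, List.nodup_append]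
      refine ⟨?_, T.nodup_toList, List.nodup_singleton _, ?_⟩
      · rw [List.mem_append, List.mem_singleton, Finset.mem_toList]
        rintro (h | h)
        · exact (hTm y h).2.1 rfl
        · exact hne h
      · intro a ha b hb
        rw [List.mem_singleton] at hb
        rw [Finset.mem_toList] at ha
        subst hb
        exact (hTm a ha).1)
    (fun h hh hhB => absurd hhB (hHB h (hall h hh)))
    (by
      intro h hh h' hh' _
      have h1 := cn_card G B Z h h'
      have h2 := hdeg h (hall h hh)
      have h3 := hdeg h' (hall h' hh')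
      have h1' : ((nb G B h).card : ℝ) + (nb G B h').card ≤
          B.card + (((cn G B h h').filter (fun v => v ∉ Z)).card +
            (B.filter (fun v => v ∈ Z)).card) := by exact_mod_cast h1
      have hB0 : (0 : ℝ) ≤ B.card := Nat.cast_nonneg _
      have hk0 : (0 : ℝ) ≤ k := Nat.cast_nonneg _
      have h4 : ε * B.card ≤ 1 / 2000 * B.card := mul_le_mul_of_nonneg_right hε hB0
      have h5 : (k : ℝ) ≤ ((cn G B h h').filter (fun v => v ∉ Z)).card := by
        linarith
      exact_mod_cast h5)
    (by omega)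
  refine ⟨l, by omega, hP, fun v hv => ?_⟩
  rcases hm v hv with h | h
  · rw [Finset.mem_toList] at h
    have h1 := (hTm v h).2.2
    exact ⟨Or.inl h1, fun hZv => hZH v hZv h1⟩
  · exact ⟨Or.inr h.1, h.2⟩

end Pool.Agent.H17.VX
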