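import Pool.Agent.H30.VX.Targets

/-!
# Rounding at a random threshold (row RND of the board vex)
-/

set_option autoImplicit false

open Finset Pool.Agent.H48.CE Pool.Agent.H30.VR Pool.Agent.H30.VX

namespace Pool.Agent.H17.VX

theorem cnt1 (N : ℕ) (y : ℝ) (hy : 0 ≤ y) :
    (((range N).filter (fun i : ℕ => (i : ℝ) + 1 ≤ y)).card : ℝ) ≤ y := by
  have h1 : (range N).filter (fun i : ℕ => (i : ℝ) + 1 ≤ y) ⊆ range ⌊y⌋₊ := by
    intro i hi
    rw [Finset.mem_filter] at hi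
    rw [Finset.mem_range]
    have h2 : i + 1 ≤ ⌊y⌋₊ := Nat.le_floor (by push_cast; exact hi.2)
    omega
  have h2 := Finset.card_le_card h1
  rw [Finset.card_range] at h2
  have h3 : (⌊y⌋₊ : ℝ) ≤ y := Nat.floor_le hy
  have h4 : (((range N).filter (fun i : ℕ => (i : ℝ) + 1 ≤ y)).card : ℝ) ≤ (⌊y⌋₊ : ℝ) := by
    exact_mod_cast h2
  linarith

theorem cnt2 (N : ℕ) (y : ℝ) (hy : 0 ≤ y) (hyN : y ≤ N) :
    (((range N).filter (fun i : ℕ => y < (i : ℝ) + 1)).card : ℝ) ≤ N - y + 1 := by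
  have h1 : (range N).filter (fun i : ℕ => y < (i : ℝ) + 1) ⊆ Ico ⌊y⌋₊ N := by
    intro i hi
    rw [Finset.mem_filter, Finset.mem_range] at hi
    rw [Finset.mem_Ico]
    refine ⟨?_, hi.1⟩
    have h2 : ⌊y⌋₊ < i + 1 := (Nat.floor_lt hy).2 (by push_cast; exact hi.2)
    omega
  have h2 := Finset.card_le_card h1
  rw [Nat.card_Ico] at h2
  have h3 : ⌊y⌋₊ ≤ N := Nat.floor_le_of_le hyN
  have h4 : y < ⌊y⌋₊ + 1 := Nat.lt_floor_add_one y
  have h5 : (((range N).filter (fun i : ℕ => y < (i : ℝ) + 1)).card : ℝ) ≤ (N : ℝ) - ⌊y⌋₊ := by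
    rw [← Nat.cast_sub h3]
    exact_mod_cast h2
  linarith

/-- the average over the thresholds -/
theorem avg (N : ℕ) (x : ℝ) (hx : 0 ≤ x) :
    ∑ i ∈ range N, ((if (i : ℝ) + 1 ≤ 2 * N * x then (1 : ℝ) else 0) +
      (if 2 * N * (1 - x) < (i : ℝ) + 1 then (1 : ℝ) else 0)) ≤ 2 * ((N + 1) * x) := by
  rw [Finset.sum_add_distrib, Finset.sum_boole, Finset.sum_boole]
  have hN : (0 : ℝ) ≤ N := Nat.cast_nonneg N
  have h1 := cnt1 N (2 * N * x) (by positivity)
  have hc : ∀ p : ℕ → Prop, ∀ _ : DecidablePred p,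
      (((range N).filter p).card : ℝ) ≤ N := by
    intro p _
    have h := Finset.card_filter_le (range N) p
    rw [Finset.card_range] at h
    exact_mod_cast h
  have h1' := hc (fun i : ℕ => (i : ℝ) + 1 ≤ 2 * N * x) inferInstance
  have h2' := hc (fun i : ℕ => 2 * N * (1 - x) < (i : ℝ) + 1) inferInstance
  rcases lt_or_ge x (1 / 2) with h | h
  · have h3 : (range N).filter (fun i : ℕ => 2 * N * (1 - x) < (i : ℝ) + 1) = ∅ := by
      rw [Finset.filter_eq_empty_iff]
      intro i hi hlt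
      rw [Finset.mem_range] at hi
      have h4 : (i : ℝ) + 1 ≤ N := by exact_mod_cast hi
      nlinarith
    rw [h3]
    simp only [Finset.card_empty, Nat.cast_zero, add_zero]
    nlinarith
  rcases le_or_gt x 1 with h' | h'
  · have h3 := cnt2 N (2 * N * (1 - x)) (by
      have : 0 ≤ 1 - x := by linarith
      positivity) (by nlinarith)
    nlinarith
  · nlinarith

theorem pf_RND : T_RND := by
  classical
  intro V _ w ε K hε hε2 hK hw hsum
  have h1ε : 0 < 1 - ε := by linarith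
  set x : V → ℝ := fun v => w v / (1 - ε) with hx
  have hx0 : ∀ v, 0 ≤ x v := fun v => div_nonneg (hw v) h1ε.le
  obtain ⟨N, hN⟩ : ∃ N : ℕ, 2 / ε ≤ N := exists_nat_ge _
  have hN0 : (0 : ℝ) < N := lt_of_lt_of_le (by positivity) hN
  have hN1 : 0 < N := by exact_mod_cast hN0
  have hNε : 2 ≤ N * ε := by rwa [div_le_iff₀ hε] at hN
  let H : ℕ → Finset V := fun i => univ.filter (fun v => 2 * N * (1 - x v) < (i : ℝ) + 1)
  let M : ℕ → Finset V := fun i => univ.filter (fun v => ¬ 2 * N * (1 - x v) < (i : ℝ) + 1 ∧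
    (i : ℝ) + 1 ≤ 2 * N * x v)
  have hHM : ∀ i ∈ range N, ((H i).card : ℝ) + (M i).card / 2 ≤
      ∑ v, ((if (i : ℝ) + 1 ≤ 2 * N * x v then (1 : ℝ) else 0) +
        (if 2 * N * (1 - x v) < (i : ℝ) + 1 then (1 : ℝ) else 0)) / 2 := by
    intro i hi
    rw [Finset.mem_range] at hi
    have hi1 : (i : ℝ) + 1 ≤ N := by exact_mod_cast hi
    have h1 : ((H i).card : ℝ) =
        ∑ v, (if 2 * N * (1 - x v) < (i : ℝ) + 1 then (1 : ℝ) else 0) := by
      rw [Finset.sum_boole]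
    have h2 : ((M i).card : ℝ) =
        ∑ v, (if ¬ 2 * N * (1 - x v) < (i : ℝ) + 1 ∧ (i : ℝ) + 1 ≤ 2 * N * x v
          then (1 : ℝ) else 0) := by
      rw [Finset.sum_boole]
    rw [h1, h2, Finset.sum_div, ← Finset.sum_add_distrib]
    refine Finset.sum_le_sum fun v _ => ?_
    by_cases ha : 2 * N * (1 - x v) < (i : ℝ) + 1
    · have hb : (i : ℝ) + 1 ≤ 2 * N * x v := by nlinarith
      simp only [ha, hb, if_true, not_true_eq_false, false_and, if_false]
      norm_num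
    · by_cases hb : (i : ℝ) + 1 ≤ 2 * N * x v
      · simp only [ha, hb, if_true, not_false_eq_true, and_true, if_false]
        norm_num
      · simp only [ha, hb, not_false_eq_true, and_false, if_false]
        norm_num
  have htot : ∑ i ∈ range N, (((H i).card : ℝ) + (M i).card / 2) ≤
      ∑ _i ∈ range N, (1 + 6 * ε) * K := by
    calc ∑ i ∈ range N, (((H i).card : ℝ) + (M i).card / 2)
        ≤ ∑ i ∈ range N, ∑ v, ((if (i : ℝ) + 1 ≤ 2 * N * x v then (1 : ℝ) else 0) +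
          (if 2 * N * (1 - x v) < (i : ℝ) + 1 then (1 : ℝ) else 0)) / 2 :=
          Finset.sum_le_sum hHM
      _ = ∑ v, (∑ i ∈ range N, ((if (i : ℝ) + 1 ≤ 2 * N * x v then (1 : ℝ) else 0) +
          (if 2 * N * (1 - x v) < (i : ℝ) + 1 then (1 : ℝ) else 0))) / 2 := by
          rw [Finset.sum_comm]
          refine Finset.sum_congr rfl fun v _ => ?_
          rw [Finset.sum_div]
      _ ≤ ∑ v, (N + 1) * x v := by
          refine Finset.sum_le_sum fun v _ => ?_
          have h := avg N (x v) (hx0 v)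
          linarith
      _ = (N + 1) * ((∑ v, w v) / (1 - ε)) := by
          rw [← Finset.mul_sum, Finset.sum_div]
      _ ≤ (N + 1) * (K / (1 - ε)) := by gcongr
      _ ≤ N * ((1 + 6 * ε) * K) := by
          rw [← mul_div_assoc, div_le_iff₀ h1ε]
          have h1 : (N : ℝ) + 1 ≤ N * ((1 + 6 * ε) * (1 - ε)) := by nlinarith
          nlinarith [mul_le_mul_of_nonneg_right h1 hK]
      _ = ∑ _i ∈ range N, (1 + 6 * ε) * K := by
          rw [Finset.sum_const, Finset.card_range, nsmul_eq_mul]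
  obtain ⟨i, hi, hle⟩ := Finset.exists_le_of_sum_le (Finset.nonempty_range_iff.2 hN1.ne') htot
  refine ⟨H i, M i, ?_, hle, ?_⟩
  · intro v hv hv'
    exact (Finset.mem_filter.1 hv').2.1 (Finset.mem_filter.1 hv).2
  · intro u v huv
    by_cases hu : 2 * N * (1 - x u) < (i : ℝ) + 1
    · exact Or.inl (Finset.mem_filter.2 ⟨Finset.mem_univ _, hu⟩)
    by_cases hv : 2 * N * (1 - x v) < (i : ℝ) + 1
    · exact Or.inr (Or.inl (Finset.mem_filter.2 ⟨Finset.mem_univ _, hv⟩))
    have h1 : 1 ≤ x u + x v := by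
      simp only [hx]
      rw [← add_div, le_div_iff₀ h1ε]
      linarith
    refine Or.inr (Or.inr ⟨Finset.mem_filter.2 ⟨Finset.mem_univ _, hu, ?_⟩,
      Finset.mem_filter.2 ⟨Finset.mem_univ _, hv, ?_⟩⟩)
    · have h2 := not_lt.1 hv
      nlinarith
    · have h2 := not_lt.1 hu
      nlinarith

end Pool.Agent.H17.VX
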