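import Pool.Agent.H30.VX.Targets

/-!
# No separation by one vertex (row TCC of the board vex)
-/

set_option autoImplicit false

open Finset Pool.Agent.H48.CE Pool.Agent.H30.VR Pool.Agent.H30.VX

namespace Pool.Agent.H17.VX

theorem pf_TCC : T_TCC := by
  classical
  intro V G S hS A B hcov hsep
  by_cases hc : 1 < (A ∩ B).card
  · exact Or.inr (Or.inr ⟨A ∩ B, fun x => Finset.mem_inter, hc⟩)
  have h := hS (up A) (up B) (up_subset A) (up_subset B)
    (by
      intro x hx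
      rcases hcov ⟨x, hx⟩ with h | h
      · exact Or.inl (mem_up.2 ⟨hx, h⟩)
      · exact Or.inr (mem_up.2 ⟨hx, h⟩))
    (by
      intro x hxA hxB y hyA hyB
      obtain ⟨hx, hxA⟩ := mem_up.1 hxA
      obtain ⟨_, hxB⟩ := mem_up.1 hxB
      obtain ⟨hy, hyA⟩ := mem_up.1 hyA
      obtain ⟨_, hyB⟩ := mem_up.1 hyB
      have h1 := Finset.card_le_one.1 (not_lt.1 hc) ⟨x, hx⟩ (Finset.mem_inter.2 ⟨hxA, hxB⟩)
        ⟨y, hy⟩ (Finset.mem_inter.2 ⟨hyA, hyB⟩)
      exact congrArg Subtype.val h1)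
    (by
      intro x hxA hxB y hyB hyA hadj
      obtain ⟨hx, hxA⟩ := mem_up.1 hxA
      obtain ⟨hy, hyB⟩ := mem_up.1 hyB
      exact hsep ⟨x, hx⟩ hxA (fun h => hxB (mem_up.2 ⟨hx, h⟩)) ⟨y, hy⟩ hyB
        (fun h => hyA (mem_up.2 ⟨hy, h⟩)) hadj)
  rcases h with h | h
  · refine Or.inl fun x => ?_
    have h1 : (x : V) ∈ up A := by rw [h]; exact x.2
    exact mem_up_coe.1 h1
  · refine Or.inr (Or.inl fun x => ?_)
    have h1 : (x : V) ∈ up B := by rw [h]; exact x.2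
    exact mem_up_coe.1 h1

end Pool.Agent.H17.VX
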